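import Pool.Agent.H7.LD.Stmts

/-!
# Board ld16, row BKT: a graph with many cliques has a core (copy of the row BKT of ia13)
-/

set_option autoImplicit false

open Finset

namespace Pool.LD7

open Pool.Agent.H23.KT Pool.Agent.H46.KW Pool.KQ Pool.GT7 Pool.GU7 Pool.HZ7 Pool.IA7

theorem BKT_thm (hW : WGTStmt) (hP : PWTStmt) (hN : NVTStmt) (hF : FNDWStmt) (hA : ARRStmt)
    (hC : CORWStmt) : BKTStmt := by
  intro p w r hT
  have hZ0 : PrZ p r := (hP p w r hT).1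
  have hZ : PrW p r := ⟨hZ0.p2, by have := hZ0.rb; omega, hZ0.rp⟩
  obtain ⟨C, hC0, hWGT0⟩ := hW p w r hT
  obtain ⟨ε, C₅, hε, hC₅, hFND0⟩ := hF p r hZ C hC0
  obtain ⟨K, hK, a₁, hNVT⟩ := hN p w r hT
  have he : (0 : ℝ) < 1 / (8 * ((p : ℝ) + 3)) := by positivity
  have he8 : 1 / (8 * ((p : ℝ) + 3)) ≤ 1 / 8 := by
    apply one_div_le_one_div_of_le (by norm_num)
    have : (0 : ℝ) ≤ p := Nat.cast_nonneg p
    linarith
  obtain ⟨a₂, hWGT⟩ := hWGT0 ε (1 / (8 * ((p : ℝ) + 3))) K hε he he8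
  obtain ⟨a₃, hFND⟩ := hFND0 (1 / (8 * ((p : ℝ) + 3))) he le_rfl
  obtain ⟨C₆, hC₆, a₄, hCOR⟩ := hC p r hZ C C₅ hC0 hC₅
  refine ⟨C₆, hC₆, max a₁ (max a₂ (max a₃ a₄)), ?_⟩
  intro a ha V _ _ G hG hV hk
  have g1 : a₁ ≤ a := le_trans (le_max_left _ _) ha
  have g1' := le_trans (le_max_right _ _) ha
  have g2 : a₂ ≤ a := le_trans (le_max_left _ _) g1'
  have g2' := le_trans (le_max_right _ _) g1'
  have g3 : a₃ ≤ a := le_trans (le_max_left _ _) g2'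
  have g4 : a₄ ≤ a := le_trans (le_max_right _ _) g2'
  obtain ⟨hkx, hav⟩ := hNVT a g1
  have hsum : ∑ v, df G p w r a (nb G univ v) ≤
      (ltt p w r * (a : ℝ) ^ (w + 1) + K * (a : ℝ) ^ w) * Fintype.card V := by
    have h0 : ∑ v, (kc G (nb G univ v) (w + 2) : ℝ) =
        ((w : ℝ) + 3) * (kc G univ (w + 3) : ℝ) := by
      have := kc_sum (G := G) (univ : Finset V) (w + 2)
      have h1 : ((∑ v ∈ (univ : Finset V), kc G (nb G univ v) (w + 2) : ℕ) : ℝ) =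
          (((w + 2 + 1) * kc G univ (w + 2 + 1) : ℕ) : ℝ) := by rw [this]
      push_cast at h1
      rw [h1]
      ring
    have h1 : ∑ v, df G p w r a (nb G univ v) =
        (Fintype.card V : ℝ) * (TT (p + 3) (w + 2) a r : ℝ) -
          ((w : ℝ) + 3) * (kc G univ (w + 3) : ℝ) := by
      unfold df
      rw [sum_sub_distrib, sum_const, card_univ, nsmul_eq_mul]
      rw [h0]
    have hR : (0 : ℝ) < ((((p + 3) * a + r + a + 1 : ℕ)) : ℝ) := by
      exact_mod_cast Nat.succ_pos _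
    have hV0 : (0 : ℝ) ≤ (Fintype.card V : ℝ) := Nat.cast_nonneg _
    refine le_of_mul_le_mul_right ?_ hR
    rw [h1]
    have h2 := mul_le_mul_of_nonneg_left hav hV0
    have hw3 : (0 : ℝ) ≤ (w : ℝ) + 3 := by positivity
    have h3 := mul_le_mul_of_nonneg_left hk hw3
    linarith [h2, h3]
  obtain ⟨D, P, hD, hDc⟩ := hWGT a g2 G hG hsum
  obtain ⟨κ, h1, h2, h3, h4⟩ := hFND a g3 G hG hV D P hD hDc
  obtain ⟨A, hA'⟩ := hA G p r a _ C C₅ D P κ hC0 hC₅ he.le hD h1 h2 h3 h4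
  exact hCOR a g4 G _ D P κ A hG he he8 hD hA'

end Pool.LD7
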